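import Mathlib

namespace Pool.Agent.Results.MP_dabbe0_pr.NotUniversal

open Finset

/-- Unnormalised weight of the visible state `v`. -/
noncomputable def wt {n m : ℕ} (W : Fin n → Fin m → ℝ) (b : Fin n → ℝ) (c : Fin m → ℝ)
    (v : Fin n → Fin 2) : ℝ :=
  ∑ h : Fin m → Fin 2, Real.exp (∑ i, b i * (v i).val + ∑ j, c j * (h j).val +
    ∑ i, ∑ j, (v i).val * W i j * (h j).val)

/-- The model: all distributions of a restricted Boltzmann machine. -/
def rbm (n m : ℕ) : Set ((Fin n → Fin 2) → ℝ) :=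
  {p | ∃ (W : Fin n → Fin m → ℝ) (b : Fin n → ℝ) (c : Fin m → ℝ),
    p = fun v => wt W b c v / ∑ u, wt W b c u}

lemma wt_eq {n m : ℕ} (W : Fin n → Fin m → ℝ) (b : Fin n → ℝ) (c : Fin m → ℝ)
    (v : Fin n → Fin 2) : wt W b c v = Real.exp (∑ i, b i * (v i).val) *
      ∏ j, (1 + Real.exp (c j + ∑ i, (v i).val * W i j)) := by
  have : ∀ j, 1 + Real.exp (c j + ∑ i, (v i).val * W i j) =
      ∑ x : Fin 2, Real.exp ((c j + ∑ i, (v i).val * W i j) * x.val) := fun j => by
    simp [Fin.sum_univ_two]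
  simp only [this]
  rw [Finset.prod_univ_sum, Fintype.piFinset_univ, Finset.mul_sum, wt]
  refine Finset.sum_congr rfl fun h _ => ?_
  rw [← Real.exp_sum, ← Real.exp_add, add_assoc, Finset.sum_comm (f := fun i j => _ * W i j * _),
    ← Finset.sum_add_distrib]
  simp only [add_mul, Finset.sum_mul]

lemma unit_le (u x y : ℝ) (h : ¬ (0 < x * y ∧ u * (u + x + y) < 0)) :
    (1 + Real.exp u) * (1 + Real.exp (u + x + y)) ≤
      4 * ((1 + Real.exp (u + x)) * (1 + Real.exp (u + y))) := by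
  have e : Real.exp u * Real.exp (u + x + y) = Real.exp (u + x) * Real.exp (u + y) := by
    rw [← Real.exp_add, ← Real.exp_add]; congr 1; ring
  have a0 := Real.exp_pos u
  have b0 := Real.exp_pos (u + x)
  have c0 := Real.exp_pos (u + y)
  have d0 := Real.exp_pos (u + x + y)
  have bc := mul_pos b0 c0
  rcases not_and_or.mp h with h | h
  · have : (Real.exp x - 1) * (Real.exp y - 1) ≤ 0 := by
      rcases mul_nonpos_iff.mp (not_lt.mp h) with h | h
      · exact mul_nonpos_of_nonneg_of_nonpos (sub_nonneg.mpr (Real.one_le_exp h.1))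
          (sub_nonpos.mpr (Real.exp_le_one_iff.mpr h.2))
      · exact mul_nonpos_of_nonpos_of_nonneg (sub_nonpos.mpr (Real.exp_le_one_iff.mpr h.1))
          (sub_nonneg.mpr (Real.one_le_exp h.2))
    have h2 := mul_nonpos_of_nonneg_of_nonpos a0.le this
    have : Real.exp u + Real.exp (u + x + y) ≤ Real.exp (u + x) + Real.exp (u + y) := by
      simp only [Real.exp_add]; linarith
    nlinarith
  · rcases mul_nonneg_iff.mp (not_lt.mp h) with h | h
    · have h1 := Real.one_le_exp h.1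
      have h2 := Real.one_le_exp h.2
      nlinarith [mul_nonneg (sub_nonneg.mpr h1) (sub_nonneg.mpr h2)]
    · have h1 := Real.exp_le_one_iff.mpr h.1
      have h2 := Real.exp_le_one_iff.mpr h.2
      nlinarith [mul_nonneg (sub_nonneg.mpr h1) (sub_nonneg.mpr h2)]

def vert (z : ℕ) : Fin 4 → Fin 2 := fun i => if z.testBit i then 1 else 0

noncomputable def ell (c : ℝ) (w : Fin 4 → ℝ) (z : ℕ) : ℝ := c + ∑ i, (vert z i).val * w i

lemma ell_mono (c : ℝ) (w : Fin 4 → ℝ) (m : ℕ) (hm : ∀ i : Fin 4, m.testBit i = true ↔ w i ≤ 0)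
    (y z : ℕ) (h : (y ^^^ m) &&& (z ^^^ m) = y ^^^ m) : ell c w y ≤ ell c w z := by
  refine add_le_add_right (Finset.sum_le_sum fun i _ => ?_) _
  have h1 := congrArg (fun a => a.testBit i) h
  have h2 := hm i
  simp only [Nat.testBit_and, Nat.testBit_xor] at h1
  unfold vert
  revert h1 h2
  cases m.testBit i <;> cases y.testBit i <;> cases z.testBit i <;> simp <;> intro h <;> linarith

lemma ell_flip (c : ℝ) (w : Fin 4 → ℝ) (z : ℕ) (i : Fin 4) :
    ell c w (z ^^^ 2 ^ i.val) = ell c w z + (if z.testBit i then -w i else w i) := by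
  unfold ell vert
  simp only [Fin.sum_univ_four, Nat.testBit_xor, Nat.testBit_two_pow]
  fin_cases i <;> simp <;> split_ifs <;> simp_all <;> ring

abbrev Sq := ℕ × Fin 4 × Fin 4

def far (q : Sq) : ℕ := (q.1 ^^^ 2 ^ q.2.1.val) ^^^ 2 ^ q.2.2.val
def up (m : ℕ) (q : Sq) : Bool := (q.1 ^^^ m).testBit q.2.1
def ok (m : ℕ) (q : Sq) : Bool := (q.1 ^^^ m).testBit q.2.1 == (q.1 ^^^ m).testBit q.2.2
def lo (m : ℕ) (q : Sq) : ℕ := if up m q then far q else q.1
def hi (m : ℕ) (q : Sq) : ℕ := if up m q then q.1 else far q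
def bad (m : ℕ) (q r : Sq) : Bool := (hi m q ^^^ m) &&& (lo m r ^^^ m) == hi m q ^^^ m
def clash (m : ℕ) (q : Sq) (l : List Sq) : Bool :=
  !ok m q || l.any fun r => bad m q r || bad m r q

def go (m1 m2 m3 : ℕ) : List Sq → List Sq → List Sq → List Sq → Bool
  | [], _, _, _ => false
  | q :: l, a, b, c =>
    (clash m1 q a || go m1 m2 m3 l (q :: a) b c) && ((clash m2 q b || go m1 m2 m3 l a (q :: b) c) &&
      (clash m3 q c || go m1 m2 m3 l a b (q :: c)))

def Cov (L : ℕ → ℝ) (m : ℕ) (q : Sq) : Prop := ok m q = true ∧ L (lo m q) < 0 ∧ 0 < L (hi m q)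

def Mono (L : ℕ → ℝ) (m : ℕ) : Prop := ∀ y z, (y ^^^ m) &&& (z ^^^ m) = y ^^^ m → L y ≤ L z

lemma not_clash {L : ℕ → ℝ} {m : ℕ} (hL : Mono L m) {q : Sq} {l : List Sq} (hq : Cov L m q)
    (hl : ∀ r ∈ l, Cov L m r) : clash m q l = false := by
  simp only [clash, hq.1, Bool.not_true, Bool.false_or, List.any_eq_false, Bool.or_eq_true, bad,
    beq_iff_eq, not_or]
  intro r hr
  constructor <;> intro h <;> have := hL _ _ h <;>
    linarith [hq.2.1, hq.2.2, (hl r hr).2.1, (hl r hr).2.2]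

lemma go_sound {L1 L2 L3 : ℕ → ℝ} {m1 m2 m3 : ℕ} (h1 : Mono L1 m1) (h2 : Mono L2 m2)
    (h3 : Mono L3 m3) (l : List Sq) : ∀ a b c, (∀ q ∈ l, Cov L1 m1 q ∨ Cov L2 m2 q ∨ Cov L3 m3 q) →
    (∀ r ∈ a, Cov L1 m1 r) → (∀ r ∈ b, Cov L2 m2 r) → (∀ r ∈ c, Cov L3 m3 r) →
    go m1 m2 m3 l a b c = false := by
  induction l with
  | nil => intros; rfl
  | cons q l ih =>
    intro a b c hl ha hb hc
    have hl' := fun r hr => hl r (List.mem_cons_of_mem _ hr)
    rcases hl q List.mem_cons_self with h | h | h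
    · simp [go, not_clash h1 h ha, ih (q :: a) b c hl' (List.forall_mem_cons.mpr ⟨h, ha⟩) hb hc]
    · simp [go, not_clash h2 h hb, ih a (q :: b) c hl' ha (List.forall_mem_cons.mpr ⟨h, hb⟩) hc]
    · simp [go, not_clash h3 h hc, ih a b (q :: c) hl' ha hb (List.forall_mem_cons.mpr ⟨h, hc⟩)]

def sqs : List Sq := [(11, 0, 2), (2, 0, 2), (9, 1, 2), (10, 1, 2), (2, 2, 3), (4, 2, 3), (1, 0, 1),
  (8, 0, 1), (0, 0, 3), (5, 0, 3), (4, 1, 3), (6, 0, 3), (3, 1, 3), (3, 1, 2), (7, 2, 3)]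

lemma key : ∀ m1 < 16, ∀ m2 < 16, ∀ m3 < 16,
    (!(sqs.all fun q => ok m1 q || ok m2 q || ok m3 q) || go m1 m2 m3 sqs [] [] []) = true := by
  decide +kernel

lemma cov_of (c : ℝ) (w : Fin 4 → ℝ) (m : ℕ) (hm : ∀ i : Fin 4, m.testBit i = true ↔ w i ≤ 0)
    (q : Sq) (hq : q.2.1 ≠ q.2.2)
    (h : 4 * ((1 + Real.exp (ell c w (q.1 ^^^ 2 ^ q.2.1.val))) *
        (1 + Real.exp (ell c w (q.1 ^^^ 2 ^ q.2.2.val)))) <
      (1 + Real.exp (ell c w q.1)) * (1 + Real.exp (ell c w (far q)))) : Cov (ell c w) m q := by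
  obtain ⟨z, i, k⟩ := q
  have e : (z ^^^ 2 ^ i.val).testBit k = z.testBit k := by
    have : ¬ i.val = k.val := fun h => hq (Fin.ext h)
    simp [Nat.testBit_xor, Nat.testBit_two_pow, this]
  have hf : ell c w (far (z, i, k)) = ell c w z + (if z.testBit i then -w i else w i) +
      (if z.testBit k then -w k else w k) := by
    simp only [far, ell_flip, e]
  simp only [ell_flip, hf] at h
  have h1 := by_contra fun h' => absurd (unit_le _ _ _ h') (not_le.mpr h)
  rw [← hf] at h1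
  obtain ⟨h1, h2⟩ := h1
  have hi' := hm i
  have hk' := hm k
  simp only [Cov, ok, lo, hi, up, Nat.testBit_xor, beq_iff_eq]
  rcases mul_pos_iff.mp h1 with ⟨hx, hy⟩ | ⟨hx, hy⟩
  · have h3 : ell c w z < 0 ∧ 0 < ell c w (far (z, i, k)) := by
      rcases mul_neg_iff.mp h2 with h | h
      · linarith [h.1, h.2]
      · exact h
    have a1 : (z.testBit i ^^ m.testBit i) = false := by
      revert hx hi'
      cases z.testBit i <;> cases m.testBit i <;> simp <;> intros <;> linarith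
    have a2 : (z.testBit k ^^ m.testBit k) = false := by
      revert hy hk'
      cases z.testBit k <;> cases m.testBit k <;> simp <;> intros <;> linarith
    simp [a1, a2, h3]
  · have h3 : 0 < ell c w z ∧ ell c w (far (z, i, k)) < 0 := by
      rcases mul_neg_iff.mp h2 with h | h
      · exact h
      · linarith [h.1, h.2]
    have a1 : (z.testBit i ^^ m.testBit i) = true := by
      revert hx hi'
      cases z.testBit i <;> cases m.testBit i <;> simp <;> intros <;> linarith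
    have a2 : (z.testBit k ^^ m.testBit k) = true := by
      revert hy hk'
      cases z.testBit k <;> cases m.testBit k <;> simp <;> intros <;> linarith
    simp [a1, a2, h3]

lemma mask (w : Fin 4 → ℝ) : ∃ m < 16, ∀ i : Fin 4, m.testBit i = true ↔ w i ≤ 0 := by
  classical
  refine ⟨Nat.ofBits fun i : Fin 4 => decide (w i ≤ 0), Nat.ofBits_lt_two_pow _, fun i => ?_⟩
  rw [Nat.testBit_ofBits_lt _ _ i.2]
  simp

def U : Set ((Fin 4 → Fin 2) → ℝ) := {p | ∀ q ∈ sqs,
  64 * (p (vert (q.1 ^^^ 2 ^ q.2.1.val)) * p (vert (q.1 ^^^ 2 ^ q.2.2.val))) <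
    p (vert q.1) * p (vert (far q))}

lemma U_open : IsOpen U := by
  have : U = ⋂ q ∈ sqs.toFinset, {p : (Fin 4 → Fin 2) → ℝ |
      64 * (p (vert (q.1 ^^^ 2 ^ q.2.1.val)) * p (vert (q.1 ^^^ 2 ^ q.2.2.val))) <
        p (vert q.1) * p (vert (far q))} := by
    ext p; simp [U]
  rw [this]
  exact isOpen_biInter_finset fun q _ => isOpen_lt (by fun_prop) (by fun_prop)

lemma disj (p) (hp : p ∈ U) (hr : p ∈ rbm 4 3) : False := by
  obtain ⟨W, b, c, rfl⟩ := hr
  choose m hm hw using fun j => mask fun i => W i j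
  have hne : ∀ q ∈ sqs, q.2.1 ≠ q.2.2 := by decide
  have hc : ∀ q ∈ sqs, Cov (ell (c 0) fun i => W i 0) (m 0) q ∨
      Cov (ell (c 1) fun i => W i 1) (m 1) q ∨ Cov (ell (c 2) fun i => W i 2) (m 2) q := by
    intro q hq
    by_contra hn
    push Not at hn
    have n0 := not_lt.mp fun h => hn.1 (cov_of _ _ _ (hw 0) q (hne q hq) h)
    have n1 := not_lt.mp fun h => hn.2.1 (cov_of _ _ _ (hw 1) q (hne q hq) h)
    have n2 := not_lt.mp fun h => hn.2.2 (cov_of _ _ _ (hw 2) q (hne q hq) h)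
    have h := hp q hq
    have hZ : 0 < ∑ u, wt W b c u := Finset.sum_pos (fun u _ => by rw [wt_eq]; positivity)
      Finset.univ_nonempty
    rw [div_mul_div_comm, div_mul_div_comm, ← mul_div_assoc,
      div_lt_div_iff_of_pos_right (by positivity)] at h
    have hb : ∀ z, ∑ i, b i * (vert z i).val = ell 0 b z := fun z => by
      simp [ell, mul_comm]
    have hl : ∀ z, wt W b c (vert z) = Real.exp (ell 0 b z) *
        ((1 + Real.exp (ell (c 0) (fun i => W i 0) z)) *
          (1 + Real.exp (ell (c 1) (fun i => W i 1) z)) *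
          (1 + Real.exp (ell (c 2) (fun i => W i 2) z))) := fun z => by
      rw [wt_eq, hb, Fin.prod_univ_three]; rfl
    have e : (q.1 ^^^ 2 ^ q.2.1.val).testBit q.2.2 = q.1.testBit q.2.2 := by
      have : ¬ q.2.1.val = q.2.2.val := fun h => hne q hq (Fin.ext h)
      simp [Nat.testBit_xor, Nat.testBit_two_pow, this]
    have eb : Real.exp (ell 0 b q.1) * Real.exp (ell 0 b (far q)) =
        Real.exp (ell 0 b (q.1 ^^^ 2 ^ q.2.1.val)) * Real.exp (ell 0 b (q.1 ^^^ 2 ^ q.2.2.val)) := by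
      rw [← Real.exp_add, ← Real.exp_add]
      simp only [far, ell_flip, e]
      congr 1
      ring
    have n := mul_le_mul eb.le (mul_le_mul (mul_le_mul n0 n1 (by positivity)
      (by positivity)) n2 (by positivity) (by positivity)) (by positivity) (by positivity)
    simp only [hl] at h
    refine absurd h (not_lt.mpr ?_)
    refine le_trans (le_of_eq ?_) (n.trans (le_of_eq ?_)) <;> ring
  have h1 := key _ (hm 0) _ (hm 1) _ (hm 2)
  rw [go_sound (ell_mono _ _ _ (hw 0)) (ell_mono _ _ _ (hw 1)) (ell_mono _ _ _ (hw 2)) sqs [] [] []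
    hc (by simp) (by simp) (by simp), Bool.or_false, Bool.not_eq_true', List.all_eq_false] at h1
  obtain ⟨q, hq, h1⟩ := h1
  rcases hc q hq with h | h | h <;> simp [h.1] at h1

def F (v : Fin 4 → Fin 2) : ℕ := 128 ^ [0, 2, 4, 3, 5, 5, 0, 0, 2, 5, 0, 5, 4, 0, 0, 1].getD
  ((v 0).val + 2 * (v 1).val + 4 * (v 2).val + 8 * (v 3).val) 0

theorem result : ∃ q : (Fin 4 → Fin 2) → ℝ, (∀ v, 0 < q v) ∧ ∑ v, q v = 1 ∧
    q ∉ closure (rbm 4 3) := by
  have hF : ∀ v, (0 : ℝ) < F v := fun v => by unfold F; positivity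
  have hZ : (0 : ℝ) < ∑ u, (F u : ℝ) := Finset.sum_pos (fun u _ => hF u) Finset.univ_nonempty
  refine ⟨fun v => F v / ∑ u, (F u : ℝ), fun v => div_pos (hF v) hZ, ?_, fun h => ?_⟩
  · rw [← Finset.sum_div, div_self hZ.ne']
  · obtain ⟨p, hp, hr⟩ := mem_closure_iff.mp h U U_open (by
      intro q hq
      rw [div_mul_div_comm, div_mul_div_comm, ← mul_div_assoc,
        div_lt_div_iff_of_pos_right (by positivity)]
      have : ∀ q ∈ sqs, 64 * (F (vert (q.1 ^^^ 2 ^ q.2.1.val)) * F (vert (q.1 ^^^ 2 ^ q.2.2.val))) <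
          F (vert q.1) * F (vert (far q)) := by decide +kernel
      exact_mod_cast this q hq)
    exact disj p hp hr

end Pool.Agent.Results.MP_dabbe0_pr.NotUniversal
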